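import Pool.Agent.Lib.MP_688fd0_co.TE.Iface1

/-!
# Module CHERN: upper tail (0.3)
-/

namespace Pool.Agent.Lib.MP_688fd0_co.TE.H34

open Pool.Agent.Lib.MP_688fd0_co.TE

theorem exp_le_quad {x : ℝ} (h0 : 0 ≤ x) (h1 : x ≤ 1) : Real.exp x ≤ 1 + x + x ^ 2 := by
  have h := Real.abs_exp_sub_one_sub_id_le (x := x) (by rw [abs_of_nonneg h0]; exact h1)
  have h2 := le_of_abs_le h
  linarith

theorem chern.{u, v} (hp : PIPR_S.{u, v}) : CHERN_S.{u, v} := by
  intro ι _ _ α _ μ hμ f M m d hM hd hf0 hfM hm hdm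
  have hm0 : 0 < m := by linarith
  set θ : ℝ := d / (2 * m * M) with hθ
  have hθ0 : 0 < θ := by positivity
  have hθM : θ * M ≤ 1 := by
    rw [hθ, div_mul_eq_mul_div, div_le_one (by positivity)]
    nlinarith
  have hW := hp.1 ι α μ hμ
  -- Markov
  have hmk : Pr (piW μ) (fun ω => m + d ≤ ∑ i, f i (ω i)) ≤
      Real.exp (-(θ * (m + d))) * Ex (piW μ) (fun ω => ∏ i, Real.exp (θ * f i (ω i))) := by
    unfold Pr Ex
    rw [Finset.mul_sum]
    refine Finset.sum_le_sum fun ω _ => ?_
    change piW μ ω * ind (m + d ≤ ∑ i, f i (ω i)) ≤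
      Real.exp (-(θ * (m + d))) * (piW μ ω * ∏ i, Real.exp (θ * f i (ω i)))
    rw [← Real.exp_sum, ← Finset.mul_sum]
    have hle : ind (m + d ≤ ∑ i, f i (ω i)) ≤
        Real.exp (-(θ * (m + d))) * Real.exp (θ * ∑ i, f i (ω i)) := by
      rw [← Real.exp_add]
      by_cases h : m + d ≤ ∑ i, f i (ω i)
      · rw [ind_of h]
        apply Real.one_le_exp
        have := mul_le_mul_of_nonneg_left h hθ0.le
        linarith
      · rw [ind_not h]
        exact (Real.exp_pos _).le
    calc piW μ ω * ind (m + d ≤ ∑ i, f i (ω i)) ≤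
        piW μ ω * (Real.exp (-(θ * (m + d))) * Real.exp (θ * ∑ i, f i (ω i))) :=
          mul_le_mul_of_nonneg_left hle (hW.nn ω)
      _ = _ := by ring
  have hprod : Ex (piW μ) (fun ω => ∏ i, Real.exp (θ * f i (ω i))) ≤
      Real.exp ((θ + θ ^ 2 * M) * m) := by
    rw [hp.2 ι α μ (fun i a => Real.exp (θ * f i a))]
    have h1 : ∀ i, Ex (μ i) (fun a => Real.exp (θ * f i a)) ≤
        Real.exp ((θ + θ ^ 2 * M) * Ex (μ i) (f i)) := by
      intro i
      have h2 : Ex (μ i) (fun a => Real.exp (θ * f i a)) ≤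
          Ex (μ i) (fun a => 1 + (θ + θ ^ 2 * M) * f i a) := by
        unfold Ex
        refine Finset.sum_le_sum fun a _ => mul_le_mul_of_nonneg_left ?_ ((hμ i).nn a)
        have h3 : θ * f i a ≤ 1 := (mul_le_mul_of_nonneg_left (hfM i a) hθ0.le).trans hθM
        have h4 := exp_le_quad (mul_nonneg hθ0.le (hf0 i a)) h3
        have h5 : (θ * f i a) ^ 2 ≤ θ ^ 2 * M * f i a := by
          have := mul_le_mul_of_nonneg_right (hfM i a) (hf0 i a)
          nlinarith [sq_nonneg θ]
        nlinarith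
      have h6 : Ex (μ i) (fun a => 1 + (θ + θ ^ 2 * M) * f i a) =
          1 + (θ + θ ^ 2 * M) * Ex (μ i) (f i) := by
        unfold Ex
        simp only [mul_add, mul_one, Finset.sum_add_distrib, (hμ i).one, Finset.mul_sum]
        congr 1
        refine Finset.sum_congr rfl fun a _ => ?_
        ring
      rw [h6] at h2
      refine h2.trans ?_
      rw [add_comm]
      exact Real.add_one_le_exp _
    calc ∏ i, Ex (μ i) (fun a => Real.exp (θ * f i a)) ≤
        ∏ i, Real.exp ((θ + θ ^ 2 * M) * Ex (μ i) (f i)) := by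
          refine Finset.prod_le_prod (fun i _ => ?_) fun i _ => h1 i
          unfold Ex
          exact Finset.sum_nonneg fun a _ => mul_nonneg ((hμ i).nn a) (Real.exp_pos _).le
      _ = Real.exp ((θ + θ ^ 2 * M) * ∑ i, Ex (μ i) (f i)) := by
          rw [← Real.exp_sum, Finset.mul_sum]
      _ ≤ _ := by
          apply Real.exp_le_exp.2
          exact mul_le_mul_of_nonneg_left hm (by positivity)
  calc Pr (piW μ) (fun ω => m + d ≤ ∑ i, f i (ω i)) ≤
      Real.exp (-(θ * (m + d))) * Real.exp ((θ + θ ^ 2 * M) * m) :=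
        hmk.trans (mul_le_mul_of_nonneg_left hprod (Real.exp_pos _).le)
    _ = Real.exp (-(d ^ 2 / (4 * m * M))) := by
        rw [← Real.exp_add]
        congr 1
        rw [hθ]
        field_simp
        ring

end Pool.Agent.Lib.MP_688fd0_co.TE.H34
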