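import Pool.Agent.Lib.MP_688fd0_co.TE.Iface3

/-!
# Module EXX: expectations of label weights
-/

set_option linter.unusedSectionVars false

namespace Pool.Agent.Lib.MP_688fd0_co.TE.H34

open Pool.Agent.Lib.MP_688fd0_co.TE

universe u v

section one

variable {V : Type u} {Val : Type v} [Fintype V] [Fintype Val] [DecidableEq V] {a : ℕ} (M : LM V Val a)

/-- law of the fields of one slot -/
noncomputable def slw : (V → Option Val) → ℝ := piW (fun u : V => optW (M.P u))

theorem sum_option {β : Type v} [Fintype β] (f : Option β → ℝ) :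
    ∑ o, f o = f none + ∑ e, f (some e) := Fintype.sum_option f

theorem optW_pr (u : V) : IsPr (optW (M.P u)) where
  nn o := by
    cases o with
    | none => exact sub_nonneg.2 (M.hP1 u)
    | some e => exact M.hP0 u e
  one := by
    rw [sum_option]
    change 1 - ∑ e, M.P u e + ∑ e, M.P u e = 1
    ring

theorem slw_pr (hp : PIPR_S.{u, v}) : IsPr (slw M) := hp.1 V _ _ fun u => optW_pr M u

theorem Ex_opt_ind (u : V) (e : Val) :
    Ex (optW (M.P u)) (fun o => ind (o = some e)) = M.P u e := by
  classical
  unfold Ex
  rw [sum_option]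
  simp only [optW]
  rw [ind_not (by simp), mul_zero, zero_add, Finset.sum_eq_single e]
  · rw [ind_of rfl, mul_one]
  · intro e' _ h
    rw [ind_not (by simpa using h), mul_zero]
  · intro h
    exact absurd (Finset.mem_univ _) h

theorem Ex_one {Ω : Type*} [Fintype Ω] {μ : Ω → ℝ} (h : IsPr μ) : Ex μ (fun _ => 1) = 1 := by
  unfold Ex
  simp [h.one]

theorem Ex_smul {Ω : Type*} [Fintype Ω] (μ : Ω → ℝ) (f : Ω → ℝ) (c : ℝ) :
    Ex μ (fun ω => c * f ω) = c * Ex μ f := by
  unfold Ex
  rw [Finset.mul_sum]
  refine Finset.sum_congr rfl fun ω _ => ?_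
  ring

/-- one coordinate -/
theorem Ex_slw_one (hp : PIPR_S.{u, v}) (s : V × Val) :
    Ex (slw M) (fun η => ind (η s.1 = some s.2)) = M.P s.1 s.2 := by
  have h := hp.2 V (fun _ => Option Val) (fun u => optW (M.P u))
    (fun u o => if u = s.1 then ind (o = some s.2) else 1)
  have h1 : (fun η : V → Option Val => ∏ u, if u = s.1 then ind (η u = some s.2) else 1) =
      fun η => ind (η s.1 = some s.2) := by
    funext η
    rw [Finset.prod_ite_eq' Finset.univ s.1, if_pos (Finset.mem_univ _)]
  rw [h1] at h
  unfold slw
  rw [h, Finset.prod_eq_single s.1]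
  · simp only [if_true]
    exact Ex_opt_ind M s.1 s.2
  · intro u _ hu
    simp only [if_neg hu]
    exact Ex_one (optW_pr M u)
  · intro h
    exact absurd (Finset.mem_univ _) h

/-- two coordinates -/
theorem Ex_slw_two (hp : PIPR_S.{u, v}) (s s' : V × Val) (hs : M.P s.1 s.2 ≠ 0)
    (hs' : M.P s'.1 s'.2 ≠ 0) :
    Ex (slw M) (fun η => ind (η s.1 = some s.2) / M.P s.1 s.2 *
      (ind (η s'.1 = some s'.2) / M.P s'.1 s'.2)) =
      if s.1 = s'.1 then ind (s.2 = s'.2) / M.P s.1 s.2 else 1 := by
  have e1 : (fun η : V → Option Val => ind (η s.1 = some s.2) / M.P s.1 s.2 *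
      (ind (η s'.1 = some s'.2) / M.P s'.1 s'.2)) =
      fun η => (1 / (M.P s.1 s.2 * M.P s'.1 s'.2)) *
        (ind (η s.1 = some s.2) * ind (η s'.1 = some s'.2)) := by
    funext η
    field_simp
  rw [e1, Ex_smul]
  by_cases h1 : s.1 = s'.1
  · rw [if_pos h1]
    by_cases h2 : s.2 = s'.2
    · have hss : s = s' := Prod.ext h1 h2
      subst hss
      have e2 : (fun η : V → Option Val => ind (η s.1 = some s.2) * ind (η s.1 = some s.2)) =
          fun η => ind (η s.1 = some s.2) := by
        funext η
        exact ind_mul_self _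
      rw [e2, Ex_slw_one M hp, ind_of rfl]
      field_simp
    · have e2 : (fun η : V → Option Val => ind (η s.1 = some s.2) * ind (η s'.1 = some s'.2)) =
          fun _ => 0 * 1 := by
        funext η
        rw [← ind_and, ind_not, zero_mul]
        rintro ⟨h3, h4⟩
        rw [← h1, h3] at h4
        exact h2 (Option.some.inj h4)
      rw [e2, Ex_smul, ind_not h2]
      simp
  · rw [if_neg h1]
    have h := hp.2 V (fun _ => Option Val) (fun u => optW (M.P u))
      (fun u o => (if u = s.1 then ind (o = some s.2) else 1) *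
        (if u = s'.1 then ind (o = some s'.2) else 1))
    have e2 : (fun η : V → Option Val => ∏ u, (if u = s.1 then ind (η u = some s.2) else 1) *
        (if u = s'.1 then ind (η u = some s'.2) else 1)) =
        fun η => ind (η s.1 = some s.2) * ind (η s'.1 = some s'.2) := by
      funext η
      rw [Finset.prod_mul_distrib, Finset.prod_ite_eq' Finset.univ s.1,
        if_pos (Finset.mem_univ _), Finset.prod_ite_eq' Finset.univ s'.1,
        if_pos (Finset.mem_univ _)]
    rw [e2] at h
    have h3 : Ex (slw M) (fun η => ind (η s.1 = some s.2) * ind (η s'.1 = some s'.2)) =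
        M.P s.1 s.2 * M.P s'.1 s'.2 := by
      unfold slw
      rw [h]
      have h4 : ∀ u, Ex (optW (M.P u)) (fun o => (if u = s.1 then ind (o = some s.2) else 1) *
          (if u = s'.1 then ind (o = some s'.2) else 1)) =
          (if u = s.1 then M.P s.1 s.2 else 1) * (if u = s'.1 then M.P s'.1 s'.2 else 1) := by
        intro u
        by_cases h5 : u = s.1
        · subst h5
          simp only [if_true, if_neg h1, mul_one]
          exact Ex_opt_ind M s.1 s.2
        · by_cases h6 : u = s'.1
          · subst h6
            simp only [if_true, if_neg h5, one_mul]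
            exact Ex_opt_ind M s'.1 s'.2
          · simp only [if_neg h5, if_neg h6, one_mul]
            exact Ex_one (optW_pr M u)
      rw [Finset.prod_congr rfl fun u _ => h4 u, Finset.prod_mul_distrib,
        Finset.prod_ite_eq' Finset.univ s.1, if_pos (Finset.mem_univ _),
        Finset.prod_ite_eq' Finset.univ s'.1, if_pos (Finset.mem_univ _)]
    rw [h3]
    field_simp

/-- weight of one slot -/
noncomputable def sw (s : Option (V × Val)) (η : V → Option Val) : ℝ :=
  match s with
  | some s => ind (η s.1 = some s.2) / M.P s.1 s.2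
  | none => 1

/-- the site of the list at the slot `t` -/
def sat (j : ℕ) (z : List (V × Val)) (t : ℕ) : Option (V × Val) :=
  if j ≤ t then z[t - j]? else none

theorem sat_nil (j t : ℕ) : sat j ([] : List (V × Val)) t = none := by
  unfold sat
  split <;> simp

theorem sat_self (j : ℕ) (s : V × Val) (z : List (V × Val)) : sat j (s :: z) j = some s := by
  simp [sat]

theorem sat_succ_self (j : ℕ) (z : List (V × Val)) : sat (j + 1) z j = none := by
  simp [sat]

theorem sat_ne (j : ℕ) (s : V × Val) (z : List (V × Val)) (t : ℕ) (h : t ≠ j) :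
    sat j (s :: z) t = sat (j + 1) z t := by
  unfold sat
  by_cases h1 : j ≤ t
  · have h2 : j + 1 ≤ t := by omega
    have h3 : t - j = (t - (j + 1)) + 1 := by omega
    rw [if_pos h1, if_pos h2, h3, List.getElem?_cons_succ]
  · rw [if_neg h1, if_neg (by omega)]

/-- the label weight as a product over all slots -/
theorem xw_prod (ω : Fld a V Val) : ∀ (z : List (V × Val)) (j : ℕ), j + z.length ≤ a →
    M.xw ω j z = ∏ t : Fin a, sw M (sat j z t.1) (ω t)
  | [], j, _ => by
    simp only [sat_nil]
    simp [LM.xw, sw]
  | s :: z, j, h => by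
    rw [List.length_cons] at h
    have ih := xw_prod ω z (j + 1) (by omega)
    have hj : j < a := by omega
    rw [LM.xw, ih]
    have h1 : ∀ t : Fin a, sw M (sat j (s :: z) t.1) (ω t) =
        (if t = ⟨j, hj⟩ then sw M (some s) (ω t) else 1) * sw M (sat (j + 1) z t.1) (ω t) := by
      intro t
      by_cases ht : t = ⟨j, hj⟩
      · subst ht
        rw [if_pos rfl, sat_self, sat_succ_self]
        simp [sw]
      · rw [if_neg ht, one_mul, sat_ne]
        intro h2
        exact ht (Fin.ext h2)
    rw [Finset.prod_congr rfl fun t _ => h1 t, Finset.prod_mul_distrib,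
      Finset.prod_ite_eq' Finset.univ, if_pos (Finset.mem_univ _)]
    congr 1
    rw [val, dif_pos hj]
    rfl

/-- expectation of the product of the weights of a slot -/
noncomputable def pfs (o o' : Option (V × Val)) : ℝ :=
  match o, o' with
  | some s, some s' => if s.1 = s'.1 then ind (s.2 = s'.2) / M.P s.1 s.2 else 1
  | _, _ => 1

theorem pf_prod : ∀ (z z' : List (V × Val)) (j : ℕ), z.length = z'.length → j + z.length ≤ a →
    M.pf z z' = ∏ t : Fin a, pfs M (sat j z t.1) (sat j z' t.1)
  | [], [], j, _, _ => by
    simp only [sat_nil]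
    simp [LM.pf, pfs]
  | [], _ :: _, j, h, _ => by simp at h
  | _ :: _, [], j, h, _ => by simp at h
  | s :: z, s' :: z', j, h, hj => by
    rw [List.length_cons, List.length_cons] at h
    rw [List.length_cons] at hj
    have ih := pf_prod z z' (j + 1) (by omega) (by omega)
    have hja : j < a := by omega
    rw [LM.pf, ih]
    have h1 : ∀ t : Fin a, pfs M (sat j (s :: z) t.1) (sat j (s' :: z') t.1) =
        (if t = ⟨j, hja⟩ then pfs M (some s) (some s') else 1) *
          pfs M (sat (j + 1) z t.1) (sat (j + 1) z' t.1) := by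
      intro t
      by_cases ht : t = ⟨j, hja⟩
      · subst ht
        rw [if_pos rfl, sat_self, sat_self, sat_succ_self]
        simp [pfs]
      · have h2 : t.1 ≠ j := fun h2 => ht (Fin.ext h2)
        rw [if_neg ht, one_mul, sat_ne _ _ _ _ h2, sat_ne _ _ _ _ h2]
    rw [Finset.prod_congr rfl fun t _ => h1 t, Finset.prod_mul_distrib,
      Finset.prod_ite_eq' Finset.univ, if_pos (Finset.mem_univ _)]
    rfl

theorem Ex_sw_one (hp : PIPR_S.{u, v}) (o : Option (V × Val))
    (ho : ∀ s, o = some s → M.P s.1 s.2 ≠ 0) : Ex (slw M) (sw M o) = 1 := by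
  cases o with
  | none => exact Ex_one (slw_pr M hp)
  | some s =>
    have h1 : sw M (some s) = fun η => (1 / M.P s.1 s.2) * ind (η s.1 = some s.2) := by
      funext η
      change ind (η s.1 = some s.2) / M.P s.1 s.2 = _
      ring
    rw [h1, Ex_smul, Ex_slw_one M hp]
    exact one_div_mul_cancel (ho s rfl)

theorem Ex_sw_two (hp : PIPR_S.{u, v}) (o o' : Option (V × Val))
    (ho : ∀ s, o = some s → M.P s.1 s.2 ≠ 0) (ho' : ∀ s, o' = some s → M.P s.1 s.2 ≠ 0) :
    Ex (slw M) (fun η => sw M o η * sw M o' η) = pfs M o o' := by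
  cases o with
  | none =>
    have h1 : (fun η => sw M none η * sw M o' η) = sw M o' := by
      funext η
      exact one_mul _
    rw [h1, Ex_sw_one M hp o' ho']
    cases o' <;> rfl
  | some s =>
    cases o' with
    | none =>
      have h1 : (fun η => sw M (some s) η * sw M none η) = sw M (some s) := by
        funext η
        exact mul_one _
      rw [h1, Ex_sw_one M hp _ ho]
      rfl
    | some s' => exact Ex_slw_two M hp s s' (ho s rfl) (ho' s' rfl)

end one

theorem exx (hp : PIPR_S.{u, v}) (hp' : PIPR_S.{0, max u v}) : EXX_S.{u, v} := by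
  intro V Val _ _ _ a M
  refine ⟨hp'.1 (Fin a) _ _ fun _ => slw_pr M hp, ?_, ?_⟩
  · intro z j hj hz
    have h1 : (fun ω => M.xw ω j z) = fun ω : Fld a V Val => ∏ t : Fin a, sw M (sat j z t.1) (ω t) := by
      funext ω
      exact xw_prod M ω z j hj
    rw [h1]
    have h2 := hp'.2 (Fin a) (fun _ => V → Option Val) (fun _ => slw M)
      (fun t => sw M (sat j z t.1))
    refine h2.trans ?_
    refine Finset.prod_eq_one fun t _ => ?_
    refine Ex_sw_one M hp _ ?_
    intro s hs
    refine hz s ?_
    unfold sat at hs
    split at hs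
    · exact List.mem_of_getElem? hs
    · exact absurd hs (by simp)
  · intro l1 l2 l3 l hlen hl hP hPl
    have hL : 0 + (l1 ++ l2 ++ l3).length ≤ a := by
      rw [List.length_append, List.length_append]; omega
    have h1 : (fun ω => M.xw ω 0 (l1 ++ l2 ++ l3) * M.xw ω l1.length l) =
        fun ω : Fld a V Val => ∏ t : Fin a, (sw M (sat 0 (l1 ++ l2 ++ l3) t.1) (ω t) *
          sw M (sat l1.length l t.1) (ω t)) := by
      funext ω
      rw [Finset.prod_mul_distrib, ← xw_prod M ω _ 0 hL, ← xw_prod M ω l l1.length (by omega)]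
    rw [h1]
    have h2 := hp'.2 (Fin a) (fun _ => V → Option Val) (fun _ => slw M)
      (fun t η => sw M (sat 0 (l1 ++ l2 ++ l3) t.1) η * sw M (sat l1.length l t.1) η)
    refine h2.trans ?_
    rw [pf_prod M l2 l l1.length hl (by omega)]
    refine Finset.prod_congr rfl fun t _ => ?_
    have hA : ∀ s, sat 0 (l1 ++ l2 ++ l3) t.1 = some s → M.P s.1 s.2 ≠ 0 := by
      intro s hs
      refine hP s ?_
      unfold sat at hs
      rw [if_pos (Nat.zero_le _)] at hs
      exact List.mem_of_getElem? hs
    have hB : ∀ s, sat l1.length l t.1 = some s → M.P s.1 s.2 ≠ 0 := by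
      intro s hs
      refine hPl s ?_
      unfold sat at hs
      split at hs
      · exact List.mem_of_getElem? hs
      · exact absurd hs (by simp)
    rw [Ex_sw_two M hp _ _ hA hB]
    by_cases h3 : l1.length ≤ t.1
    · by_cases h4 : t.1 - l1.length < l2.length
      · congr 1
        unfold sat
        rw [if_pos (Nat.zero_le _), if_pos h3, Nat.sub_zero, List.append_assoc,
          List.getElem?_append_right h3, List.getElem?_append_left h4]
      · have h5 : sat l1.length l t.1 = none := by
          unfold sat
          rw [if_pos h3, List.getElem?_eq_none]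
          omega
        rw [h5]
        have h6 : ∀ o : Option (V × Val), pfs M o none = 1 := by
          intro o; cases o <;> rfl
        rw [h6, h6]
    · have h5 : sat l1.length l t.1 = none := by
        unfold sat
        rw [if_neg h3]
      rw [h5]
      have h6 : ∀ o : Option (V × Val), pfs M o none = 1 := by
        intro o; cases o <;> rfl
      rw [h6, h6]

end Pool.Agent.Lib.MP_688fd0_co.TE.H34
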